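import Pool.Agent.Y137.HS.Main
import Pool.Agent.Y137.HS.Small

/-!
# The standard conjecture of Hodge type for all abelian varieties of dimension at most five and for all
products of elliptic curves and abelian surfaces over finite fields

Over an algebraic closure of the field with `p` elements each abelian variety is isogenous to the
reduction `Y` of an abelian variety of CM type (`RedAV`; Honda, Tate); its cohomology of degree `n`,
with coefficients in an algebraically closed field `Ω` (an algebraic closure of `ℚ_ℓ`), consists of
the alternating `n`-forms on `Ω ⊗ H_1`. Suppose that

* the dimension of `Y` is at most five, or
* the simple factors of `Y` over an algebraic closure of the ground field which are not supersingular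
  have dimension at most three, and any two of them of dimension three are isogenous or have CM fields
  with different Galois closures or Galois CM fields (`SmallFactors`). So `Y` may be **any product of
  elliptic curves and abelian surfaces**, of any dimension and with any Newton polygons.

Then for all polarizations, all codimensions `r` and all primitive classes `z ≠ 0` in `H^{2 r}(Y)` of
algebraic cycles with rational coefficients, `(-1)^r z ∪ z ∪ E^m > 0`, where `dim Y = 2 r + m`. In
particular homological and numerical equivalence coincide for these varieties.

The space of the classes of algebraic cycles of degree `card κ` on `Y`, with rational coefficients, is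
`C Y κ`. The properties of these spaces that are used are known theorems: they are closed under sums,
cup products, pull-backs and push-forwards, they contain the Hodge classes of degree two of the
liftings (Lefschetz), the split Weil classes of degree four and six (Markman) and the Hodge classes
of degree four of the liftings that are products of elliptic curves and abelian surfaces (Ramón
Marí), and the Tate classes of degree two are combinations of such classes (Tate)
(`IsCycleSystemS`); the positivity of the Rosati involution (Weil, `IsRosatiPositive`); classes of
cycles are Tate classes over finite extensions (`AreTate`). The polarizations are those compatible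
with the complex multiplications of the lifting (`IsPolar`); by theorems of Honda, Tate and Zink each
polarized abelian variety over an algebraic closure of a finite field is isogenous to the reduction of
such a polarized abelian variety.

The proof: all Tate classes on `Y` are generated by classes of these kinds (`Y137.SF`), that is, the
relations between the Frobenius eigenvalues are products of relations which come from pairs or from
Hodge classes of liftings; the sign of the intersection form on the classes that belong to a relation
is multiplicative (this part of the argument, after Milne, is in the starting library `TH117.PO`).
-/

namespace Pool.Agent.Results.MP_361a6f_ag.DimensionFiveAndSurfaces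

open Module Pool.Agent.W495.TA Pool.Agent.W547.KB Pool.Agent.TH117.PO Pool.Agent.TH117.BL
  Pool.Agent.Y137.SF Pool.Agent.Y137.HS

/-- **The standard conjecture of Hodge type for abelian varieties over finite fields of dimension at
most five, and for all products of elliptic curves and abelian surfaces.** -/
theorem result (p : ℕ) [Fact p.Prime] (ν : PadicAlgCl p ≃+* ℂ) (Ω : Type) [Field Ω]
    [IsAlgClosed Ω] [CharZero Ω]
    (C : (Y : RedAV p ν) → (κ : Type) → ((TM Ω Y) [⋀^κ]→ₗ[Ω] Ω) → Prop)
    (hC : IsCycleSystemS Ω C) (hR : IsRosatiPositive Ω C) (hT : AreTate Ω C) (Y : RedAV p ν)
    (hY : finrank ℚ Y.X.H1 ≤ 10 ∨
      ∃ Z : RedAV p ν, SmallFactors Z ∧ IsPowersTimesSupersingular Z Y)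
    (α : Y.X.H1) (hα : IsPolar Y.X α) (r m : ℕ) (hrm : 2 * (2 * r + m) = finrank ℚ Y.X.H1)
    (z : (TM Ω Y) [⋀^Fin r × Fin 2]→ₗ[Ω] Ω) (hz : C Y (Fin r × Fin 2) z) (hz0 : z ≠ 0)
    (hprim : IsPrim α m z) : IsPosClass α m z :=
  hodgeStandard hC hR hT (hY.imp_right fun ⟨Z, h, h'⟩ => ⟨Z, h.elementary, h'⟩) hα hrm hz hz0 hprim

end Pool.Agent.Results.MP_361a6f_ag.DimensionFiveAndSurfaces
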