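import Pool.Agent.Y103.Vp.Main

open CategoryTheory AlgebraicGeometry

universe u v w

namespace Pool.Agent.Results.MP_361a6f_ag.HyperkaehlerProducts

open Pool.Agent.H914 Pool.Agent.H914.VarClass Pool.Agent.H914.VarClass.Obj
  Pool.Agent.H914.WeilCohomology Pool.Agent.W552 Pool.Agent.Y103 Pool.Agent.Y103.Vb
  Pool.Agent.Y103.Vp

/-- **The standard conjecture of Hodge type for the products of varieties of hyperkaehler type over
a finite field.** Let `P j` be a family of varieties of hyperkaehler type, of any dimensions
`2 n_j ≥ 2` (for example K3 surfaces, and other surfaces with simple Frobenius spectrum on the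
transcendental part of the second cohomology; varieties of K3^[n]-type), with Frobenius
endomorphisms relative to the same field with `q` elements, such that the Frobenius eigenvalues on
the transcendental parts of all the second cohomology groups together satisfy only the obvious
multiplicative relations with at most `M` factors (`M ≥ 2`). Let `Z` be a product of members of
the family, with any bracketing and with repetitions, of dimension at most `2 M`. Then the standard
conjectures of Hodge type and `D` hold for all cycles on `Z` whose class is in the subalgebra
generated by the second cohomology groups of the factors, for the product polarization. If the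
cohomology of the members of the family is generated by the second cohomology (for example for K3
surfaces and varieties of K3^[2]-type), they hold for all cycles on `Z` (the predicate `fun _ => True`). -/
theorem result {k : Type u} [Field k] {𝒱 : VarClass k} {ops : CycleOps 𝒱}
    (W : WeilCohomology.{u, v} ops) (ι : W.K ≃+* ℂ) {J : Type w} (P : J → PolVar 𝒱) (n : J → ℕ)
    (b : ∀ j, CForm W (P j).X) (c : J → ℚ) (q M : ℕ) (hq : q ≠ 0) (hM : 2 ≤ M)
    (hP : ∀ j, IsHyperkaehlerType W (P j) (n j) (b j) (c j) q)
    (hN : NeatWithin (fun j => transEigenvalues W (P j) (b j)) q M) (s : Shape J)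
    (hF : FrobeniusOnCycles W (s.obj ops P).X (s.obj ops P).f q)
    (hdim : (s.obj ops P).X.dim ≤ 2 * M) :
    StdFor W (s.obj ops P).X (s.obj ops P).D (InFactorTwo W P s) ∧
      ((∀ j, GeneratedByTwo W (P j).X) →
        StdFor W (s.obj ops P).X (s.obj ops P).D (fun _ => True)) := by
  have h := main hP hq hM hN ι s hF hdim
  refine ⟨h, fun hG => ⟨?_, ?_⟩⟩
  · intro j hj z hz _
    exact h.1 j hj z hz (inFactorTwo_all hG s _)
  · intro j hj z hz _
    exact h.2 j hj z hz (inFactorTwo_all hG s _)

end Pool.Agent.Results.MP_361a6f_ag.HyperkaehlerProducts
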