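import Pool.Agent.Y150.HC.Main

/-!
# MP_361a6f_ag: semistable specialization of the standard conjecture of Hodge type
-/

set_option autoImplicit false

universe u v u₁ v₁

namespace Pool.Agent.Results.MP_361a6f_ag.SemistableSpecialization

open Pool.Agent.H914 Pool.Agent.H914.VarClass Pool.Agent.Y150.Lift Pool.Agent.Y150.HC
  Pool.Agent.H447

/-- **Semistable specialization of the standard conjecture of Hodge type.** Let `X` be a smooth
projective variety of dimension `d ≥ 4` over a local field (of characteristic `p`), which is the
generic fibre of a projective strictly semistable scheme, with the ample divisor `D`; let `Y m` be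
the components of the special fibre and `Z t` the components of their pairwise intersections. Assume
that the numerical standard conjectures (hard Lefschetz and Hodge type, in codimension at least two)
hold for the `Y m` and the `Z t`, and that homological and numerical equivalence agree for the cycles
of codimension `l`, `2 ≤ l < d / 2`, on the `Z t`. (If `d = 4`, the only condition is the numerical
conjecture of Hodge type in codimension two for the components `Y m`.) Then

* the Hodge-Riemann relations hold for all cycles on `X` whose class is primitive and which are not
  numerically equivalent to zero;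
* if `X` satisfies the conjecture `A` of Lefschetz type, it satisfies the numerical form of the
  standard conjecture of Hodge type;
* if homological and numerical equivalence agree in codimension `j`, `2 ≤ j ≤ d / 2`, on the
  components `Y m`, then `X` satisfies the standard conjecture of Hodge type, and if it also satisfies
  the conjecture `A`, then homological and numerical equivalence agree on `X`.

There is no assumption on the intersections of three and more components, on the monodromy, or on
the weight-monodromy conjecture. -/
theorem result {k₁ : Type u₁} [Field k₁] {𝒱₁ : VarClass k₁} {ops₁ : CycleOps 𝒱₁}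
    (W₁ : WeilCohomology.{u₁, v₁} ops₁) (X : 𝒱₁.Obj) (D : X.Cycles)
    {k : Type u} [Field k] {𝒱 : VarClass k} {ops : CycleOps 𝒱} (W : WeilCohomology.{u, v} ops)
    {d : ℕ} (hd : 4 ≤ d) (F : SpecialFibre 𝒱 d) (R : ℕ → X.Cycles → F.Fam → Prop)
    (h : IsDegeneration W₁ X D W F R) (hY : ∀ m, NumStandard W (F.Y m) (F.D m))
    (hZ : ∀ t, NumStandard W (F.Z t) (F.E t))
    (hH : ∀ t l, 2 ≤ l → 2 * (l + 1) ≤ d → HomEqNumIn W (F.Z t) l) :
    PrimitivePositive W₁ X D ∧
      (LefschetzA W₁ X D → ∀ j, 2 * j ≤ d → NumHodge ops₁ X D j) ∧
      ((∀ m j, 2 ≤ j → 2 * j ≤ d → HomEqNumIn W (F.Y m) j) →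
        HodgeType W₁ X D ∧ (LefschetzA W₁ X D → HomEqNum W₁ X)) := by
  have hP := primitivePositive hd h hY hZ hH
  refine ⟨hP, fun hA j hj => numHodge_of h.isCyc_D hA hP (by rw [h.dim_X]; exact hj), fun hHY => ?_⟩
  have hHT := hodgeType hd h hY hZ hH hHY
  exact ⟨hHT, fun hA => homEqNum_of h.isCyc_D hA hHT⟩

end Pool.Agent.Results.MP_361a6f_ag.SemistableSpecialization
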